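import Mathlib
import Pool.Agent.Q223.EnergyMain

/-!
# MP_998457_co: the bound `Δ(δ_c) ≥ min(d_a E_b, E_a d_b)` fails, by an arbitrarily large factor
-/

set_option autoImplicit false

namespace Pool.Agent.Results.MP_998457_co.NoProductBound

open Q223.Energy

/-- For every `K` there are two binary parity-check matrices `δa`, `δb` with nonzero kernels such
that `K` times the energy barrier of the tensor product code (parity-check matrix `δa ⊗ 1` stacked
on `1 ⊗ δb`) is smaller than both `d_a E_b` and `E_a d_b`. -/
theorem result (K : ℕ) : ∃ (ma na mb nb : Type) (_ : Fintype ma) (_ : Fintype na)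
    (_ : Fintype mb) (_ : Fintype nb) (_ : DecidableEq na) (_ : DecidableEq nb)
    (δa : Matrix ma na (ZMod 2)) (δb : Matrix mb nb (ZMod 2)),
    (∃ x, x ≠ 0 ∧ δa.mulVec x = 0) ∧ (∃ x, x ≠ 0 ∧ δb.mulVec x = 0) ∧
    K * codeBarrier (product δa δb) <
      min (minDistance δa * codeBarrier δb) (codeBarrier δa * minDistance δb) :=
  main K

end Pool.Agent.Results.MP_998457_co.NoProductBound
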